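import Mathlib

/-!
# The moduli space of planar graphs with `n` bounded faces is not homotopy equivalent to the
unordered configuration space
-/

set_option autoImplicit false

namespace Pool.Agent.Results.MP_c05aef_gt.NotHomotopyEquiv

open Set Topology unitInterval

/-- The plane. -/
abbrev Plane : Type := ℝ × ℝ

/-! ### Graphs -/

/-- A finite graph (loops and multiple edges allowed). -/
structure FinGraph where
  nV : ℕ
  nE : ℕ
  src : Fin nE → Fin nV
  tgt : Fin nE → Fin nV

namespace FinGraph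

variable (G : FinGraph)

/-- The gluing of the edges (copies of `[0,1]`) to the vertices. -/
inductive Glue : Fin G.nV ⊕ (Fin G.nE × I) → Fin G.nV ⊕ (Fin G.nE × I) → Prop
  | src (e : Fin G.nE) : Glue (Sum.inr (e, 0)) (Sum.inl (G.src e))
  | tgt (e : Fin G.nE) : Glue (Sum.inr (e, 1)) (Sum.inl (G.tgt e))

/-- The graph as a one-dimensional CW complex. -/
def Space : Type := Quot G.Glue

instance : TopologicalSpace G.Space := inferInstanceAs (TopologicalSpace (Quot G.Glue))

/-- The vertex `v` as a point of the graph. -/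
def vertex (v : Fin G.nV) : G.Space := Quot.mk _ (Sum.inl v)

/-- The point with parameter `t` on the edge `e`. -/
def edgePt (e : Fin G.nE) (t : I) : G.Space := Quot.mk _ (Sum.inr (e, t))

variable {G}

/-- `φ` is constant on the edge `e`. -/
def ConstOn (φ : C(G.Space, Plane)) (e : Fin G.nE) : Prop :=
  ∀ s t : I, φ (G.edgePt e s) = φ (G.edgePt e t)

/-- A degenerate graph embedding. -/
structure IsDegEmb (φ : C(G.Space, Plane)) : Prop where
  /-- the restriction to each closed edge is constant or an embedding -/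
  edge : ∀ e, ConstOn φ e ∨ IsEmbedding ((range (G.edgePt e)).domRestrict φ)
  /-- `φ v = φ w` iff `v`, `w` are connected by edges on which `φ` is constant -/
  vert : ∀ v w, φ (G.vertex v) = φ (G.vertex w) ↔
    Relation.EqvGen (fun a b => ∃ e, ConstOn φ e ∧ G.src e = a ∧ G.tgt e = b) v w
  /-- the interior of a nonconstant edge does not meet the vertices -/
  edge_vert : ∀ e, ¬ ConstOn φ e → ∀ t : I, t ≠ 0 → t ≠ 1 → ∀ v,
    φ (G.edgePt e t) ≠ φ (G.vertex v)
  /-- the interiors of distinct nonconstant edges are disjoint -/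
  edge_edge : ∀ e f, e ≠ f → ¬ ConstOn φ e → ¬ ConstOn φ f →
    ∀ s t : I, s ≠ 0 → s ≠ 1 → t ≠ 0 → t ≠ 1 → φ (G.edgePt e s) ≠ φ (G.edgePt f t)
  /-- no cycle (closed walk `v 0, e 0, v 1, e 1, …` with distinct vertices and distinct edges) has
  all of its edges constant -/
  no_cycle : ¬ ∃ (k : ℕ) (v : ZMod (k + 1) → Fin G.nV) (e : ZMod (k + 1) → Fin G.nE),
    Function.Injective v ∧ Function.Injective e ∧
    (∀ i, s(G.src (e i), G.tgt (e i)) = s(v i, v (i + 1))) ∧ ∀ i, ConstOn φ (e i)

/-- The space of degenerate graph embeddings of `G` in the plane (compact-open topology). -/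
def DegEmb (G : FinGraph) : Type := {φ : C(G.Space, Plane) // IsDegEmb φ}

instance (G : FinGraph) : TopologicalSpace (DegEmb G) :=
  inferInstanceAs (TopologicalSpace {φ : C(G.Space, Plane) // IsDegEmb φ})

end FinGraph

open FinGraph

/-- The image in the plane of a degenerate graph embedding of some finite graph. -/
def image (x : Σ G : FinGraph, DegEmb G) : Set Plane := range x.2.1

/-- Two degenerate graph embeddings are identified when their images coincide. -/
def imageSetoid : Setoid (Σ G : FinGraph, DegEmb G) where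
  r x y := image x = image y
  iseqv := ⟨fun _ => rfl, fun h => h.symm, fun h h' => h.trans h'⟩

/-- The space `𝓝(ℝ²)`. -/
def Nets : Type := Quotient imageSetoid

instance : TopologicalSpace Nets := inferInstanceAs (TopologicalSpace (Quotient imageSetoid))

/-- The image of a class. -/
def Nets.image : Nets → Set Plane :=
  Quotient.lift (s := imageSetoid) NotHomotopyEquiv.image (fun _ _ h => h)

/-- The bounded faces: the bounded connected components of the complement. -/
def boundedFaces (K : Set Plane) : Set (Set Plane) :=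
  {C | (∃ z ∈ Kᶜ, C = connectedComponentIn Kᶜ z) ∧ Bornology.IsBounded C}

/-- The space `𝓝_n(ℝ²)` of classes with exactly `n` bounded faces. -/
def NetsN (n : ℕ) : Type := {c : Nets // (boundedFaces c.image).encard = n}

instance (n : ℕ) : TopologicalSpace (NetsN n) :=
  inferInstanceAs (TopologicalSpace {c : Nets // (boundedFaces c.image).encard = n})

/-- The ordered configuration space of `n` distinct points of the plane. -/
def Conf (n : ℕ) : Type := {x : Fin n → Plane // Function.Injective x}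

instance (n : ℕ) : TopologicalSpace (Conf n) :=
  inferInstanceAs (TopologicalSpace {x : Fin n → Plane // Function.Injective x})

/-- Configurations that differ by a permutation. -/
def permSetoid (n : ℕ) : Setoid (Conf n) where
  r x y := ∃ g : Equiv.Perm (Fin n), ∀ i, y.1 i = x.1 (g i)
  iseqv := ⟨fun _ => ⟨1, fun _ => rfl⟩,
    fun {x y} ⟨g, h⟩ => ⟨g⁻¹, fun i => by rw [h]; simp⟩,
    fun {x y z} ⟨g, h⟩ ⟨g', h'⟩ => ⟨g * g', fun i => by rw [h', h]; rfl⟩⟩

/-- The unordered configuration space of `n` points of the plane. -/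
def UConf (n : ℕ) : Type := Quotient (permSetoid n)

instance (n : ℕ) : TopologicalSpace (UConf n) :=
  inferInstanceAs (TopologicalSpace (Quotient (permSetoid n)))

/-! ### Connectedness of the image depends only on the graph -/

/-- Two vertices are connected by a path of edges. -/
def Reach (G : FinGraph) (v w : Fin G.nV) : Prop :=
  Relation.EqvGen (fun a b => ∃ e, G.src e = a ∧ G.tgt e = b) v w

theorem mk_surj {G : FinGraph} (x : G.Space) :
    (∃ v, x = G.vertex v) ∨ (∃ e t, x = G.edgePt e t) := by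
  induction x using Quot.ind with
  | mk y =>
    rcases y with v | ⟨e, t⟩
    · exact Or.inl ⟨v, rfl⟩
    · exact Or.inr ⟨e, t, rfl⟩

theorem edgePt_zero {G : FinGraph} (e : Fin G.nE) : G.edgePt e 0 = G.vertex (G.src e) :=
  Quot.sound (Glue.src e)

theorem edgePt_one {G : FinGraph} (e : Fin G.nE) : G.edgePt e 1 = G.vertex (G.tgt e) :=
  Quot.sound (Glue.tgt e)

/-- The points in the component of the vertex `v`. -/
def compSet (G : FinGraph) (v : Fin G.nV) : Set G.Space :=
  Quot.lift (fun y : Fin G.nV ⊕ (Fin G.nE × I) =>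
    match y with
    | Sum.inl w => Reach G v w
    | Sum.inr (e, _) => Reach G v (G.src e)) (by
    rintro _ _ (e | e)
    · rfl
    · apply propext
      constructor
      · intro h
        exact h.trans _ _ _ (Relation.EqvGen.rel _ _ ⟨e, rfl, rfl⟩)
      · intro h
        exact h.trans _ _ _ (Relation.EqvGen.symm _ _ (Relation.EqvGen.rel _ _ ⟨e, rfl, rfl⟩)))

theorem vertex_mem {G : FinGraph} {v w : Fin G.nV} : G.vertex w ∈ compSet G v ↔ Reach G v w :=
  Iff.rfl

theorem edgePt_mem {G : FinGraph} {v : Fin G.nV} {e : Fin G.nE} {t : I} :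
    G.edgePt e t ∈ compSet G v ↔ Reach G v (G.src e) := Iff.rfl

theorem continuous_mk (G : FinGraph) : Continuous (Quot.mk G.Glue : _ → G.Space) :=
  continuous_quot_mk

theorem isClopen_compSet (G : FinGraph) (v : Fin G.nV) : IsClopen (compSet G v) := by
  have key : ∀ P : (Fin G.nV ⊕ Fin G.nE) → Prop,
      IsOpen {y : Fin G.nV ⊕ (Fin G.nE × I) | P (y.map id Prod.fst)} := by
    intro P
    have hc : Continuous (fun y : Fin G.nV ⊕ (Fin G.nE × I) => y.map id Prod.fst) :=
      continuous_id.sumMap continuous_fst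
    exact (isOpen_discrete {z | P z}).preimage hc
  have h1 : IsOpen (compSet G v) := by
    have : IsOpen ((Quot.mk G.Glue : _ → G.Space) ⁻¹' compSet G v) := by
      convert key (Sum.elim (fun w => Reach G v w) (fun e => Reach G v (G.src e))) using 1
      ext y
      rcases y with w | ⟨e, t⟩ <;> rfl
    exact this
  have h2 : IsOpen (compSet G v)ᶜ := by
    have : IsOpen ((Quot.mk G.Glue : _ → G.Space) ⁻¹' (compSet G v)ᶜ) := by
      convert key (Sum.elim (fun w => ¬ Reach G v w) (fun e => ¬ Reach G v (G.src e))) using 1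
      ext y
      rcases y with w | ⟨e, t⟩ <;> rfl
    exact this
  exact ⟨⟨h2⟩, h1⟩

instance (G : FinGraph) : CompactSpace G.Space :=
  inferInstanceAs (CompactSpace (Quot G.Glue))

theorem constOn_vertex {G : FinGraph} {φ : C(G.Space, Plane)} {e : Fin G.nE} (h : ConstOn φ e)
    (t : I) : φ (G.edgePt e t) = φ (G.vertex (G.src e)) := by
  rw [h t 0, edgePt_zero]

theorem reach_of_vert {G : FinGraph} {φ : C(G.Space, Plane)} (hφ : IsDegEmb φ) {v w : Fin G.nV}
    (h : φ (G.vertex v) = φ (G.vertex w)) : Reach G v w := by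
  have key : ∀ a b, Relation.EqvGen (fun a b => ∃ e, ConstOn φ e ∧ G.src e = a ∧ G.tgt e = b) a b →
      Reach G a b := by
    intro a b h
    induction h with
    | rel a b h =>
      obtain ⟨e, _, h1, h2⟩ := h
      exact Relation.EqvGen.rel _ _ ⟨e, h1, h2⟩
    | refl a => exact Relation.EqvGen.refl _
    | symm a b _ ih => exact Relation.EqvGen.symm _ _ ih
    | trans a b c _ _ ih1 ih2 => exact Relation.EqvGen.trans _ _ _ ih1 ih2
  exact key v w ((hφ.vert v w).1 h)

/-- Each point of the graph is a vertex, or is mapped to the same point as a vertex of its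
component, or is interior to a nonconstant edge. -/
theorem trichotomy {G : FinGraph} (φ : C(G.Space, Plane)) (x : G.Space) :
    (∃ v, φ x = φ (G.vertex v) ∧ ∀ u, x ∈ compSet G u ↔ Reach G u v) ∨
    (∃ e t, x = G.edgePt e t ∧ ¬ ConstOn φ e ∧ t ≠ 0 ∧ t ≠ 1) := by
  rcases mk_surj x with ⟨v, rfl⟩ | ⟨e, t, rfl⟩
  · exact Or.inl ⟨v, rfl, fun u => Iff.rfl⟩
  · by_cases hc : ConstOn φ e
    · exact Or.inl ⟨G.src e, constOn_vertex hc t, fun u => Iff.rfl⟩
    · by_cases h0 : t = 0
      · subst h0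
        exact Or.inl ⟨G.src e, by rw [edgePt_zero], fun u => Iff.rfl⟩
      · by_cases h1 : t = 1
        · subst h1
          refine Or.inl ⟨G.tgt e, by rw [edgePt_one], fun u => ?_⟩
          rw [edgePt_one]
          exact Iff.rfl
        · exact Or.inr ⟨e, t, rfl, hc, h0, h1⟩

theorem same_comp {G : FinGraph} {φ : C(G.Space, Plane)} (hφ : IsDegEmb φ) {x y : G.Space}
    (h : φ x = φ y) (u : Fin G.nV) : x ∈ compSet G u → y ∈ compSet G u := by
  rcases trichotomy φ x with ⟨v, hv, hv'⟩ | ⟨e, s, rfl, he, hs0, hs1⟩ <;>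
  rcases trichotomy φ y with ⟨w, hw, hw'⟩ | ⟨f, t, rfl, hf, ht0, ht1⟩
  · rw [hv', hw']
    intro hr
    exact hr.trans _ _ _ (reach_of_vert hφ (hv.symm.trans (h.trans hw)))
  · exact absurd (h.symm.trans hv) (hφ.edge_vert f hf t ht0 ht1 v)
  · exact absurd (h.trans hw) (hφ.edge_vert e he s hs0 hs1 w)
  · by_cases hef : e = f
    · subst hef
      exact fun hr => hr
    · exact absurd h (hφ.edge_edge e f hef he hf s t hs0 hs1 ht0 ht1)

/-- The graph is connected (or empty). -/
def Conn (G : FinGraph) : Prop := ∀ v w, Reach G v w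

theorem preconnected_iff {G : FinGraph} {φ : C(G.Space, Plane)} (hφ : IsDegEmb φ) :
    IsPreconnected (range φ) ↔ Conn G := by
  constructor
  · intro hp v w
    by_contra hvw
    have hS := isClopen_compSet G v
    have hc1 : IsClosed (φ '' compSet G v) :=
      (hS.isClosed.isCompact.image φ.continuous).isClosed
    have hc2 : IsClosed (φ '' (compSet G v)ᶜ) :=
      (hS.compl.isClosed.isCompact.image φ.continuous).isClosed
    obtain ⟨_, -, ⟨x, hx, rfl⟩, ⟨y, hy, hxy⟩⟩ := isPreconnected_closed_iff.1 hp _ _ hc1 hc2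
      (by
        rintro _ ⟨x, rfl⟩
        by_cases hx : x ∈ compSet G v
        · exact Or.inl ⟨x, hx, rfl⟩
        · exact Or.inr ⟨x, hx, rfl⟩)
      ⟨_, ⟨G.vertex v, rfl⟩, G.vertex v, vertex_mem.2 (Relation.EqvGen.refl _), rfl⟩
      ⟨_, ⟨G.vertex w, rfl⟩, G.vertex w, fun h => hvw (vertex_mem.1 h), rfl⟩
    exact hy (same_comp hφ hxy.symm v hx)
  · intro hG
    rw [← image_univ]
    refine IsPreconnected.image ?_ _ φ.continuous.continuousOn
    -- every point is joined to a vertex, all vertices are joined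
    have hI : PathConnectedSpace I := isPathConnected_iff_pathConnectedSpace.1
      ((convex_Icc (0 : ℝ) 1).isPathConnected ⟨0, by simp⟩)
    have he : ∀ e (t : I), Joined (G.vertex (G.src e)) (G.edgePt e t) := by
      intro e t
      have hc : Continuous (fun s : I => G.edgePt e s) :=
        (continuous_mk G).comp (continuous_inr.comp (Continuous.prodMk_right e))
      have h0 : Joined (G.edgePt e 0) (G.edgePt e t) :=
        (PathConnectedSpace.joined (0 : I) t).map hc
      rwa [edgePt_zero] at h0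
    have hr : ∀ v w, Reach G v w → Joined (G.vertex v) (G.vertex w) := by
      intro v w h
      induction h with
      | rel a b h =>
        obtain ⟨e, rfl, rfl⟩ := h
        have := he e 1
        rwa [edgePt_one] at this
      | refl a => exact Joined.refl _
      | symm a b _ ih => exact ih.symm
      | trans a b c _ _ ih1 ih2 => exact ih1.trans ih2
    have hv : ∀ x : G.Space, ∃ v, Joined (G.vertex v) x := by
      intro x
      rcases mk_surj x with ⟨v, rfl⟩ | ⟨e, t, rfl⟩
      · exact ⟨v, Joined.refl _⟩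
      · exact ⟨_, he e t⟩
    have hj : ∀ x y : G.Space, Joined x y := by
      intro x y
      obtain ⟨v, hvx⟩ := hv x
      obtain ⟨w, hwy⟩ := hv y
      exact hvx.symm.trans ((hr v w (hG v w)).trans hwy)
    rcases isEmpty_or_nonempty G.Space with hemp | hne
    · rw [Set.univ_eq_empty_iff.2 hemp]
      exact isPreconnected_empty
    · have : PathConnectedSpace G.Space := ⟨hne, hj⟩
      exact isPreconnected_univ

/-! ### A clopen subset -/

theorem isClopen_conn : IsClopen {c : Nets | IsPreconnected c.image} := by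
  have key : ∀ P : Prop → Prop, IsOpen {c : Nets | P (IsPreconnected c.image)} := by
    intro P
    have : IsOpen ((Quotient.mk imageSetoid) ⁻¹' {c : Nets | P (IsPreconnected c.image)}) := by
      rw [isOpen_sigma_iff]
      intro G
      by_cases hP : P (Conn G)
      · convert isOpen_univ
        ext φ
        simp only [mem_preimage, mem_univ, iff_true]
        change P (IsPreconnected (range φ.1))
        rwa [propext (preconnected_iff φ.2)]
      · convert isOpen_empty
        ext φ
        simp only [mem_preimage, mem_empty_iff_false, iff_false]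
        change ¬ P (IsPreconnected (range φ.1))
        rwa [propext (preconnected_iff φ.2)]
    exact this
  exact ⟨⟨key (fun Q => ¬ Q)⟩, key (fun Q => Q)⟩

theorem Joined.mem_iff {X : Type} [TopologicalSpace X] {S : Set X} (hS : IsClopen S) {x y : X}
    (h : Joined x y) : x ∈ S ↔ y ∈ S := by
  have key : ∀ {S : Set X}, IsClopen S → x ∈ S → y ∈ S := by
    intro S hS hx
    exact hS.connectedComponent_subset hx (pathComponent_subset_component x h)
  refine ⟨key hS, fun hy => ?_⟩
  by_contra hx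
  exact key hS.compl hx hy

/-! ### The unordered configuration space is path connected -/

/-- The standard configuration. -/
def std (n : ℕ) : Conf n := ⟨fun i => ((i : ℝ), 0), fun i j h => by
  simp only [Prod.mk.injEq, Nat.cast_inj, and_true] at h
  exact Fin.ext h⟩

theorem exists_shear {n : ℕ} (x : Conf n) :
    ∃ s : ℝ, Function.Injective (fun i => (x.1 i).1 + s * (x.1 i).2) := by
  let B : Set ℝ := ⋃ (p : Fin n × Fin n), {s | p.1 ≠ p.2 ∧
    (x.1 p.1).1 + s * (x.1 p.1).2 = (x.1 p.2).1 + s * (x.1 p.2).2}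
  have hB : B.Finite := by
    refine Set.finite_iUnion fun p => Set.Subsingleton.finite ?_
    rintro s ⟨hne, hs⟩ t ⟨-, ht⟩
    by_contra hst
    have h2 : (s - t) * ((x.1 p.1).2 - (x.1 p.2).2) = 0 := by linear_combination hs - ht
    have h3 : (x.1 p.1).2 = (x.1 p.2).2 := by
      rcases mul_eq_zero.1 h2 with h | h
      · exact absurd (sub_eq_zero.1 h) hst
      · exact sub_eq_zero.1 h
    have h4 : (x.1 p.1).1 = (x.1 p.2).1 := by
      rw [h3] at hs
      linarith
    exact hne (x.2 (Prod.ext h4 h3))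
  obtain ⟨s, hs⟩ := hB.exists_notMem
  refine ⟨s, fun i j hij => ?_⟩
  by_contra hne
  exact hs (mem_iUnion.2 ⟨(i, j), hne, hij⟩)

theorem joined_shear {n : ℕ} (x : Conf n) (s : ℝ) : ∃ y : Conf n,
    (∀ i, y.1 i = ((x.1 i).1 + s * (x.1 i).2, (x.1 i).2)) ∧ Joined x y := by
  have hinj : ∀ t : ℝ, Function.Injective
      (fun i => (((x.1 i).1 + t * s * (x.1 i).2, (x.1 i).2) : Plane)) := by
    intro t i j hij
    simp only [Prod.mk.injEq] at hij
    obtain ⟨h1, h2⟩ := hij
    rw [h2] at h1
    exact x.2 (Prod.ext (by linarith) h2)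
  refine ⟨⟨fun i => ((x.1 i).1 + 1 * s * (x.1 i).2, (x.1 i).2), hinj 1⟩, fun i => by simp, ?_⟩
  refine ⟨⟨⟨fun t : I => ⟨fun i => ((x.1 i).1 + (t : ℝ) * s * (x.1 i).2, (x.1 i).2), hinj t⟩, ?_⟩,
    ?_, ?_⟩⟩
  · refine Continuous.subtype_mk ?_ _
    fun_prop
  · apply Subtype.ext
    funext i
    simp
  · apply Subtype.ext
    funext i
    simp

theorem joined_std {n : ℕ} (y : Conf n) (hy : StrictMono (fun i => (y.1 i).1)) :
    Joined y (std n) := by
  have hinj : ∀ t : I, Function.Injective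
      (fun i : Fin n => (((1 - (t : ℝ)) * (y.1 i).1 + t * (i : ℝ), (1 - (t : ℝ)) * (y.1 i).2) :
        Plane)) := by
    intro t
    have hm : StrictMono (fun i : Fin n => (1 - (t : ℝ)) * (y.1 i).1 + t * (i : ℝ)) := by
      intro i j hij
      have h1 : (y.1 i).1 < (y.1 j).1 := hy hij
      have h2 : (i : ℝ) < (j : ℝ) := by exact_mod_cast hij
      have h3 : 0 ≤ (t : ℝ) := t.2.1
      have h4 : (t : ℝ) ≤ 1 := t.2.2
      simp only
      rcases h3.eq_or_lt with h | h
      · rw [← h]; simpa using h1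
      · nlinarith [mul_pos h (sub_pos.2 h2), mul_nonneg (sub_nonneg.2 h4) (sub_pos.2 h1).le]
    intro i j hij
    simp only [Prod.mk.injEq] at hij
    exact hm.injective hij.1
  refine ⟨⟨⟨fun t : I => ⟨_, hinj t⟩, ?_⟩, ?_, ?_⟩⟩
  · refine Continuous.subtype_mk ?_ _
    fun_prop
  · apply Subtype.ext
    funext i
    simp
  · apply Subtype.ext
    funext i
    simp [std]

theorem joined_mk {n : ℕ} {x y : Conf n} (h : Joined x y) :
    Joined (Quotient.mk (permSetoid n) x : UConf n) (Quotient.mk (permSetoid n) y) :=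
  h.map (continuous_quotient_mk' (s := permSetoid n))

theorem uconf_joined {n : ℕ} (u : UConf n) :
    Joined u (Quotient.mk (permSetoid n) (std n) : UConf n) := by
  induction u using Quotient.ind with
  | _ x =>
    obtain ⟨s, hs⟩ := exists_shear x
    obtain ⟨y, hy, hxy⟩ := joined_shear x s
    let g := Tuple.sort (fun i => (y.1 i).1)
    let z : Conf n := ⟨fun i => y.1 (g i), y.2.comp g.injective⟩
    have hyz : (Quotient.mk (permSetoid n) y : UConf n) = Quotient.mk (permSetoid n) z :=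
      Quotient.sound ⟨g, fun i => rfl⟩
    have hz : StrictMono (fun i => (z.1 i).1) := by
      have h1 : Monotone (fun i => (z.1 i).1) := Tuple.monotone_sort (fun i => (y.1 i).1)
      refine h1.strictMono_of_injective ?_
      intro i j hij
      have : (y.1 (g i)).1 = (y.1 (g j)).1 := hij
      rw [hy, hy] at this
      exact g.injective (hs this)
    have h1 := joined_mk hxy
    rw [hyz] at h1
    exact h1.trans (joined_mk (joined_std z hz))

/-- A clopen set that is neither empty nor everything obstructs a homotopy equivalence. -/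
theorem not_equiv {n : ℕ} (a b : NetsN n) (ha : IsPreconnected a.1.image)
    (hb : ¬ IsPreconnected b.1.image) : ¬ Nonempty (ContinuousMap.HomotopyEquiv (NetsN n) (UConf n)) := by
  rintro ⟨h⟩
  let S : Set (NetsN n) := {c | IsPreconnected c.1.image}
  have hS : IsClopen S := isClopen_conn.preimage (continuous_subtype_val :
    Continuous (Subtype.val : {c : Nets // (boundedFaces c.image).encard = n} → Nets))
  obtain ⟨F⟩ := h.left_inv
  have h1 : ∀ c, c ∈ S ↔ h.invFun (h.toFun c) ∈ S := by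
    intro c
    have : Joined (h.invFun (h.toFun c)) c := ⟨F.evalAt c⟩
    exact (Joined.mem_iff hS this).symm
  have h2 : ∀ u, h.invFun u ∈ S ↔ h.invFun (Quotient.mk (permSetoid n) (std n) : UConf n) ∈ S :=
    fun u => Joined.mem_iff hS ((uconf_joined u).map h.invFun.continuous)
  have h3 : a ∈ S ↔ b ∈ S := by rw [h1 a, h1 b, h2, h2 (h.toFun b)]
  exact hb (h3.1 ha)

/-! ### Construction of classes from embedded graphs -/

theorem exists_net {V E : Type} [Finite V] [Finite E] (src tgt : E → V) (fV : V → Plane)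
    (fE : E → I → Plane) (hc : ∀ e, Continuous (fE e)) (h0 : ∀ e, fE e 0 = fV (src e))
    (h1 : ∀ e, fE e 1 = fV (tgt e)) (hE : ∀ e, Function.Injective (fE e))
    (hV : Function.Injective fV) (hEV : ∀ e (t : I), t ≠ 0 → t ≠ 1 → ∀ v, fE e t ≠ fV v)
    (hEE : ∀ e f, e ≠ f → ∀ s t : I, s ≠ 0 → s ≠ 1 → t ≠ 0 → t ≠ 1 → fE e s ≠ fE f t) :
    ∃ c : Nets, c.image = range fV ∪ ⋃ e, range (fE e) := by
  let eV : V ≃ Fin (Nat.card V) := Finite.equivFin V
  let eE : E ≃ Fin (Nat.card E) := Finite.equivFin E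
  let G : FinGraph := ⟨Nat.card V, Nat.card E, fun e => eV (src (eE.symm e)),
    fun e => eV (tgt (eE.symm e))⟩
  let f : Fin (Nat.card V) ⊕ (Fin (Nat.card E) × I) → Plane :=
    Sum.elim (fun v => fV (eV.symm v)) (fun p => fE (eE.symm p.1) p.2)
  have hf : Continuous f := by
    refine Continuous.sumElim continuous_of_discreteTopology ?_
    rw [continuous_prod_of_discrete_left]
    intro e
    exact hc (eE.symm e)
  let φ : C(G.Space, Plane) := ⟨Quot.lift f (by
    rintro _ _ (e | e)
    · change fE (eE.symm e) 0 = fV (eV.symm (eV (src (eE.symm e))))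
      rw [h0, Equiv.symm_apply_apply]
    · change fE (eE.symm e) 1 = fV (eV.symm (eV (tgt (eE.symm e))))
      rw [h1, Equiv.symm_apply_apply]), continuous_quot_lift _ hf⟩
  have φV : ∀ v, φ (G.vertex v) = fV (eV.symm v) := fun v => rfl
  have φE : ∀ e t, φ (G.edgePt e t) = fE (eE.symm e) t := fun e t => rfl
  have hconst : ∀ e, ¬ ConstOn φ e := by
    intro e h
    have := h 0 1
    rw [φE, φE] at this
    exact zero_ne_one (hE _ this)
  have hφ : IsDegEmb φ := by
    refine ⟨fun e => Or.inr ?_, ?_, ?_, ?_, ?_⟩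
    · have hcont : Continuous (fun s : I => G.edgePt e s) :=
        (continuous_mk G).comp (continuous_inr.comp (Continuous.prodMk_right e))
      have hcomp : CompactSpace (range (G.edgePt e)) :=
        isCompact_iff_compactSpace.1 (isCompact_range hcont)
      refine (Continuous.isClosedEmbedding (φ.continuous.comp continuous_subtype_val) ?_).isEmbedding
      rintro ⟨_, s, rfl⟩ ⟨_, t, rfl⟩ h
      have h' : φ (G.edgePt e s) = φ (G.edgePt e t) := h
      rw [φE, φE] at h'
      have := hE _ h'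
      subst this
      rfl
    · intro v w
      constructor
      · intro h
        rw [φV, φV] at h
        have := eV.symm.injective (hV h)
        subst this
        exact Relation.EqvGen.refl _
      · intro h
        have : v = w := by
          induction h with
          | rel a b h =>
            obtain ⟨e, he, -, -⟩ := h
            exact absurd he (hconst e)
          | refl a => rfl
          | symm a b _ ih => exact ih.symm
          | trans a b c _ _ ih1 ih2 => exact ih1.trans ih2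
        rw [this]
    · intro e _ t ht0 ht1 v
      rw [φE, φV]
      exact hEV _ t ht0 ht1 _
    · intro e f hef _ _ s t hs0 hs1 ht0 ht1
      rw [φE, φE]
      exact hEE _ _ (fun h => hef (eE.symm.injective h)) s t hs0 hs1 ht0 ht1
    · rintro ⟨k, v, e, -, -, -, h⟩
      exact hconst _ (h 0)
  refine ⟨Quotient.mk imageSetoid ⟨G, φ, hφ⟩, ?_⟩
  change range φ = _
  ext z
  constructor
  · rintro ⟨x, rfl⟩
    rcases mk_surj x with ⟨v, rfl⟩ | ⟨e, t, rfl⟩
    · exact Or.inl ⟨_, rfl⟩
    · exact Or.inr (mem_iUnion.2 ⟨eE.symm e, t, rfl⟩)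
  · rintro (⟨v, rfl⟩ | hz)
    · exact ⟨G.vertex (eV v), by rw [φV, Equiv.symm_apply_apply]⟩
    · obtain ⟨e, t, rfl⟩ := mem_iUnion.1 hz
      exact ⟨G.edgePt (eE e) t, by rw [φE, Equiv.symm_apply_apply]⟩

/-! ### The examples -/

/-- The height of a horizontal edge. -/
def lev (j : Bool) : ℝ := if j then 1 else 0

/-- The horizontal edges: from `(i, j)` to `(i + 1, j)`, `1 ≤ i ≤ n`; for `b = true` the edge from
`(0,0)` to `(1,0)` is added. -/
def Hor (n : ℕ) (b : Bool) : Type := {p : Fin (n + 1) × Bool // p.1 ≠ 0 ∨ (b = true ∧ p.2 = false)}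

instance (n : ℕ) (b : Bool) : Finite (Hor n b) :=
  inferInstanceAs (Finite {p : Fin (n + 1) × Bool // p.1 ≠ 0 ∨ (b = true ∧ p.2 = false)})

/-- The ladder as a set: the vertical segments `{i} × [0,1]`, `0 ≤ i ≤ n + 1`, and the horizontal
segments. -/
def ladder (n : ℕ) (b : Bool) : Set Plane :=
  {z | (∃ i : ℕ, i ≤ n + 1 ∧ z.1 = i ∧ 0 ≤ z.2 ∧ z.2 ≤ 1) ∨
    (∃ (k : ℕ) (j : Bool), k ≤ n ∧ (k ≠ 0 ∨ (b = true ∧ j = false)) ∧
      (k : ℝ) ≤ z.1 ∧ z.1 ≤ k + 1 ∧ z.2 = lev j)}

theorem exists_ladder (n : ℕ) (b : Bool) : ∃ c : Nets, c.image = ladder n b := by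
  let fV : Fin (n + 2) × Bool → Plane := fun p => ((p.1 : ℝ), lev p.2)
  let fE : Fin (n + 2) ⊕ Hor n b → I → Plane :=
    Sum.elim (fun i t => ((i : ℝ), (t : ℝ))) (fun p t => ((p.1.1 : ℝ) + t, lev p.1.2))
  have hI : ∀ t : I, t ≠ 0 → t ≠ 1 → 0 < (t : ℝ) ∧ (t : ℝ) < 1 := by
    intro t h0 h1
    exact ⟨lt_of_le_of_ne t.2.1 (fun h => h0 (Subtype.ext h.symm)),
      lt_of_le_of_ne t.2.2 (fun h => h1 (Subtype.ext h))⟩
  have hint : ∀ (a c : ℕ) (t : ℝ), 0 < t → t < 1 → (a : ℝ) ≠ c + t := by
    intro a c t h0 h1 h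
    have h2 : (c : ℝ) < a := by linarith
    have h3 : (a : ℝ) < c + 1 := by linarith
    have h4 : c < a := by exact_mod_cast h2
    have h5 : a < c + 1 := by exact_mod_cast h3
    omega
  have hlev : ∀ (j : Bool) (t : ℝ), 0 < t → t < 1 → t ≠ lev j := by
    intro j t h0 h1 h
    cases j <;> simp only [lev] at h <;> norm_num at h <;> linarith
  have hlevinj : ∀ j j' : Bool, lev j = lev j' → j = j' := by
    intro j j' h
    cases j <;> cases j' <;> simp [lev] at h ⊢
  obtain ⟨c, hc⟩ := exists_net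
    (V := Fin (n + 2) × Bool) (E := Fin (n + 2) ⊕ Hor n b)
    (Sum.elim (fun i => (i, false)) (fun p => (p.1.1.castSucc, p.1.2)))
    (Sum.elim (fun i => (i, true)) (fun p => (p.1.1.succ, p.1.2))) fV fE
    (by
      rintro (i | p)
      · change Continuous (fun t : I => (((i : ℕ) : ℝ), (t : ℝ)))
        fun_prop
      · change Continuous (fun t : I => (((p.1.1 : ℕ) : ℝ) + (t : ℝ), lev p.1.2))
        fun_prop)
    (by
      rintro (i | p)
      · simp [fE, fV, lev]
      · simp [fE, fV])
    (by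
      rintro (i | p)
      · simp [fE, fV, lev]
      · simp [fE, fV])
    (by
      rintro (i | p) s t h
      · simp only [fE, Sum.elim_inl, Prod.mk.injEq] at h
        exact Subtype.ext h.2
      · simp only [fE, Sum.elim_inr, Prod.mk.injEq] at h
        exact Subtype.ext (by linarith [h.1]))
    (by
      rintro ⟨i, j⟩ ⟨i', j'⟩ h
      simp only [fV, Prod.mk.injEq, Nat.cast_inj] at h
      rw [Fin.ext h.1, hlevinj _ _ h.2])
    (by
      rintro (i | p) t h0 h1 ⟨i', j'⟩ h
      · simp only [fE, fV, Sum.elim_inl, Prod.mk.injEq] at h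
        obtain ⟨h2, h3⟩ := hI t h0 h1
        exact hlev _ _ h2 h3 h.2
      · simp only [fE, fV, Sum.elim_inr, Prod.mk.injEq] at h
        obtain ⟨h2, h3⟩ := hI t h0 h1
        exact hint _ _ _ h2 h3 h.1.symm)
    (by
      rintro (i | p) (i' | p') hne s t hs0 hs1 ht0 ht1 h
      · simp only [fE, Sum.elim_inl, Prod.mk.injEq, Nat.cast_inj] at h
        exact hne (by rw [Fin.ext h.1])
      · simp only [fE, Sum.elim_inl, Sum.elim_inr, Prod.mk.injEq] at h
        obtain ⟨h2, h3⟩ := hI s hs0 hs1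
        exact hlev _ _ h2 h3 h.2
      · simp only [fE, Sum.elim_inl, Sum.elim_inr, Prod.mk.injEq] at h
        obtain ⟨h2, h3⟩ := hI t ht0 ht1
        exact hlev _ _ h2 h3 h.2.symm
      · simp only [fE, Sum.elim_inr, Prod.mk.injEq] at h
        obtain ⟨h2, h3⟩ := hI s hs0 hs1
        obtain ⟨h4, h5⟩ := hI t ht0 ht1
        have e1 : (p.1.1 : ℕ) = p'.1.1 := by
          have h6 : ((p.1.1 : ℕ) : ℝ) < ((p'.1.1 : ℕ) : ℝ) + 1 := by linarith [h.1]
          have h7 : ((p'.1.1 : ℕ) : ℝ) < ((p.1.1 : ℕ) : ℝ) + 1 := by linarith [h.1]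
          have h8 : (p.1.1 : ℕ) < (p'.1.1 : ℕ) + 1 := by exact_mod_cast h6
          have h9 : (p'.1.1 : ℕ) < (p.1.1 : ℕ) + 1 := by exact_mod_cast h7
          omega
        have e2 : p.1.2 = p'.1.2 := hlevinj _ _ h.2
        apply hne
        congr 1
        exact Subtype.ext (Prod.ext (Fin.ext e1) e2))
  refine ⟨c, hc.trans ?_⟩
  ext z
  constructor
  · rintro (⟨⟨i, j⟩, rfl⟩ | hz)
    · refine Or.inl ⟨i, by omega, rfl, ?_, ?_⟩ <;> cases j <;> simp [fV, lev]
    · obtain ⟨e, t, rfl⟩ := mem_iUnion.1 hz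
      rcases e with i | p
      · exact Or.inl ⟨i, by omega, rfl, t.2.1, t.2.2⟩
      · refine Or.inr ⟨p.1.1, p.1.2, by omega, ?_, ?_, ?_, rfl⟩
        · rcases p.2 with h | h
          · left
            intro h'
            exact h (Fin.ext h')
          · exact Or.inr h
        · change ((p.1.1 : ℕ) : ℝ) ≤ ((p.1.1 : ℕ) : ℝ) + t
          linarith [t.2.1]
        · change ((p.1.1 : ℕ) : ℝ) + t ≤ ((p.1.1 : ℕ) : ℝ) + 1
          linarith [t.2.2]
  · rintro (⟨i, hi, h1, h2, h3⟩ | ⟨k, j, hk, hkj, h1, h2, h3⟩)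
    · refine Or.inr (mem_iUnion.2 ⟨Sum.inl ⟨i, by omega⟩, ⟨z.2, h2, h3⟩, ?_⟩)
      exact Prod.ext h1.symm rfl
    · refine Or.inr (mem_iUnion.2 ⟨Sum.inr ⟨(⟨k, by omega⟩, j), ?_⟩,
        ⟨z.1 - k, by linarith, by linarith⟩, ?_⟩)
      · rcases hkj with h | h
        · left
          intro h'
          exact h (congrArg Fin.val h')
        · exact Or.inr h
      · refine Prod.ext ?_ h3.symm
        change (k : ℝ) + (z.1 - k) = z.1
        ring

/-- The open squares of the ladder. -/
def sq (k : ℕ) : Set Plane := {z | (k : ℝ) < z.1 ∧ z.1 < k + 1 ∧ 0 < z.2 ∧ z.2 < 1}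

theorem sq_eq (k : ℕ) : sq k = Ioo (k : ℝ) (k + 1) ×ˢ Ioo (0 : ℝ) 1 := by
  ext z
  constructor
  · rintro ⟨h1, h2, h3, h4⟩
    exact ⟨⟨h1, h2⟩, ⟨h3, h4⟩⟩
  · rintro ⟨⟨h1, h2⟩, ⟨h3, h4⟩⟩
    exact ⟨h1, h2, h3, h4⟩

theorem sq_preconnected (k : ℕ) : IsPreconnected (sq k) := by
  rw [sq_eq]
  exact isPreconnected_Ioo.prod isPreconnected_Ioo

theorem sq_open (k : ℕ) : IsOpen (sq k) := by
  rw [sq_eq]
  exact isOpen_Ioo.prod isOpen_Ioo

theorem sq_bounded (k : ℕ) : Bornology.IsBounded (sq k) := by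
  rw [sq_eq]
  exact (Metric.isBounded_Ioo _ _).prod (Metric.isBounded_Ioo _ _)

theorem no_int {k i : ℕ} {x : ℝ} (h1 : (k : ℝ) < x) (h2 : x < k + 1) : x ≠ i := by
  intro h
  rw [h] at h1 h2
  have h3 : k < i := by exact_mod_cast h1
  have h4 : i < k + 1 := by exact_mod_cast h2
  omega

theorem sq_sub (n : ℕ) (b : Bool) (k : ℕ) : sq k ⊆ (ladder n b)ᶜ := by
  rintro z ⟨h1, h2, h3, h4⟩ (⟨i, hi, h5, -, -⟩ | ⟨i, j, hi, hj, h5, h6, h7⟩)
  · exact no_int h1 h2 h5
  · cases j <;> simp only [lev] at h7 <;> norm_num at h7 <;> linarith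

theorem comp_sq (n : ℕ) (b : Bool) {k : ℕ} (hk1 : 1 ≤ k) (hkn : k ≤ n) {z : Plane}
    (hz : z ∈ sq k) : connectedComponentIn (ladder n b)ᶜ z = sq k := by
  apply subset_antisymm
  · refine isPreconnected_connectedComponentIn.subset_of_closure_inter_subset (sq_open k)
      ⟨z, mem_connectedComponentIn (sq_sub n b k hz), hz⟩ ?_
    rintro w ⟨hw, hw'⟩
    have hw2 : w ∉ ladder n b := connectedComponentIn_subset _ _ hw'
    have hcl : closure (sq k) ⊆ Icc (k : ℝ) (k + 1) ×ˢ Icc (0 : ℝ) 1 := by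
      refine closure_minimal ?_ (isClosed_Icc.prod isClosed_Icc)
      rw [sq_eq]
      exact Set.prod_mono Ioo_subset_Icc_self Ioo_subset_Icc_self
    obtain ⟨⟨h1, h2⟩, ⟨h3, h4⟩⟩ := hcl hw
    refine ⟨lt_of_le_of_ne h1 ?_, lt_of_le_of_ne h2 ?_, lt_of_le_of_ne h3 ?_,
      lt_of_le_of_ne h4 ?_⟩
    · intro h
      exact hw2 (Or.inl ⟨k, by omega, h.symm, h3, h4⟩)
    · intro h
      exact hw2 (Or.inl ⟨k + 1, by omega, by rw [h]; push_cast; rfl, h3, h4⟩)
    · intro h
      exact hw2 (Or.inr ⟨k, false, hkn, Or.inl (by omega), h1, h2, by rw [← h]; simp [lev]⟩)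
    · intro h
      exact hw2 (Or.inr ⟨k, true, hkn, Or.inl (by omega), h1, h2, by rw [h]; simp [lev]⟩)
  · exact (sq_preconnected k).subset_connectedComponentIn hz (sq_sub n b k)

/-- A set containing a vertical ray is unbounded. -/
theorem ray_unbounded {n : ℕ} {b : Bool} {z : Plane} (c : ℝ) (hc : c ≠ 0)
    (h : ∀ s : ℝ, 0 ≤ s → (z.1, z.2 + s * c) ∉ ladder n b) :
    ¬ Bornology.IsBounded (connectedComponentIn (ladder n b)ᶜ z) := by
  intro hb
  let R : Set Plane := (fun s : ℝ => ((z.1, z.2 + s * c) : Plane)) '' Ici 0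
  have hR : IsPreconnected R := by
    refine isPreconnected_Ici.image _ ?_
    fun_prop
  have hzR : z ∈ R := ⟨0, self_mem_Ici, by simp⟩
  have hsub : R ⊆ connectedComponentIn (ladder n b)ᶜ z := by
    refine hR.subset_connectedComponentIn hzR ?_
    rintro _ ⟨s, hs, rfl⟩
    exact h s hs
  have hRb : Bornology.IsBounded R := hb.subset hsub
  obtain ⟨M, hM⟩ := hRb.exists_norm_le
  have hs : 0 ≤ (M + |z.2| + 1) / |c| := by
    have h1 : 0 ≤ M := (norm_nonneg z).trans (hM z hzR)
    positivity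
  have h2 := hM _ ⟨_, hs, rfl⟩
  have h3 : |z.2 + (M + |z.2| + 1) / |c| * c| ≤ M := by
    have := norm_snd_le ((z.1, z.2 + (M + |z.2| + 1) / |c| * c) : Plane)
    rw [Real.norm_eq_abs] at this
    exact this.trans h2
  have h4 : |(M + |z.2| + 1) / |c| * c| = M + |z.2| + 1 := by
    rw [abs_mul, abs_of_nonneg hs, div_mul_cancel₀ _ (abs_ne_zero.2 hc)]
  have h5 : |(M + |z.2| + 1) / |c| * c| ≤ |z.2 + (M + |z.2| + 1) / |c| * c| + |z.2| := by
    have := abs_sub (z.2 + (M + |z.2| + 1) / |c| * c) z.2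
    rwa [add_sub_cancel_left] at this
  linarith

theorem trichotomy_ladder (n : ℕ) (b : Bool) {z : Plane} (hz : z ∉ ladder n b) :
    (∃ k, 1 ≤ k ∧ k ≤ n ∧ z ∈ sq k) ∨
      ¬ Bornology.IsBounded (connectedComponentIn (ladder n b)ᶜ z) := by
  have hlev : ∀ j : Bool, 0 ≤ lev j ∧ lev j ≤ 1 := by
    intro j; cases j <;> simp [lev]
  -- points above and below
  have habove : ∀ w : Plane, 1 < w.2 → w ∉ ladder n b := by
    rintro w hw (⟨i, -, -, -, h⟩ | ⟨k, j, -, -, -, -, h⟩)
    · linarith
    · have := (hlev j).2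
      linarith
  have hbelow : ∀ w : Plane, w.2 < 0 → w ∉ ladder n b := by
    rintro w hw (⟨i, -, -, h, -⟩ | ⟨k, j, -, -, -, -, h⟩)
    · linarith
    · have := (hlev j).1
      linarith
  by_cases h1 : 1 < z.2
  · exact Or.inr (ray_unbounded 1 one_ne_zero (fun s hs => habove _ (by simp; linarith)))
  by_cases h2 : z.2 < 0
  · exact Or.inr (ray_unbounded (-1) (by norm_num) (fun s hs => hbelow _ (by simp; linarith)))
  push Not at h1 h2
  by_cases h3 : z.1 < 0
  · right
    refine ray_unbounded 1 one_ne_zero (fun s hs => ?_)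
    rintro (⟨i, -, h, -, -⟩ | ⟨k, j, -, -, h, -, -⟩)
    · have : (0 : ℝ) ≤ i := Nat.cast_nonneg i
      simp only at h
      linarith
    · have : (0 : ℝ) ≤ k := Nat.cast_nonneg k
      simp only at h
      linarith
  push Not at h3
  by_cases h4 : (n : ℝ) + 1 < z.1
  · right
    refine ray_unbounded 1 one_ne_zero (fun s hs => ?_)
    rintro (⟨i, hi, h, -, -⟩ | ⟨k, j, hk, -, -, h, -⟩)
    · have : (i : ℝ) ≤ n + 1 := by exact_mod_cast hi
      simp only at h
      linarith
    · have : (k : ℝ) ≤ n := by exact_mod_cast hk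
      simp only at h
      linarith
  push Not at h4
  -- the first coordinate is not an integer
  obtain ⟨k, hk1, hk2⟩ : ∃ k : ℕ, (k : ℝ) ≤ z.1 ∧ z.1 < k + 1 :=
    ⟨⌊z.1⌋₊, Nat.floor_le h3, Nat.lt_floor_add_one _⟩
  have hkn1 : k ≤ n + 1 := by
    have : (k : ℝ) ≤ (n + 1 : ℕ) := by push_cast; linarith
    exact_mod_cast this
  have hkne : (k : ℝ) ≠ z.1 := by
    intro h
    exact hz (Or.inl ⟨k, hkn1, h.symm, h2, h1⟩)
  have hk1' : (k : ℝ) < z.1 := lt_of_le_of_ne hk1 hkne
  have hkn : k ≤ n := by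
    have : (k : ℝ) < (n + 1 : ℕ) := by push_cast; linarith
    have : k < n + 1 := by exact_mod_cast this
    omega
  rcases Nat.eq_zero_or_pos k with rfl | hkpos
  · -- above the possible bottom edge
    right
    refine ray_unbounded 1 one_ne_zero (fun s hs => ?_)
    rintro (⟨i, hi, h, -, -⟩ | ⟨k', j, hk', hkj, h5, h6, h7⟩)
    · exact no_int hk1' hk2 h
    · simp only at h5 h6 h7
      have h8 : k' = 0 := by
        have : (k' : ℝ) < 1 := by
          push_cast at hk2
          linarith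
        have : k' < 1 := by exact_mod_cast this
        omega
      subst h8
      rcases hkj with h | ⟨hb, hj⟩
      · exact h rfl
      · subst hj
        simp only [lev, Bool.false_eq_true, if_false] at h7
        have h9 : z.2 = 0 := by linarith
        exact hz (Or.inr ⟨0, false, by omega, Or.inr ⟨hb, rfl⟩, h5, h6, by simp [lev, h9]⟩)
  · left
    refine ⟨k, hkpos, hkn, hk1', hk2, lt_of_le_of_ne h2 ?_, lt_of_le_of_ne h1 ?_⟩
    · intro h
      exact hz (Or.inr ⟨k, false, hkn, Or.inl (by omega), hk1, hk2.le, by rw [← h]; simp [lev]⟩)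
    · intro h
      exact hz (Or.inr ⟨k, true, hkn, Or.inl (by omega), hk1, hk2.le, by rw [h]; simp [lev]⟩)

theorem faces_ladder (n : ℕ) (b : Bool) : (boundedFaces (ladder n b)).encard = n := by
  have h1 : boundedFaces (ladder n b) = range (fun k : Fin n => sq (k + 1)) := by
    ext C
    constructor
    · rintro ⟨⟨z, hz, rfl⟩, hC⟩
      rcases trichotomy_ladder n b hz with ⟨k, hk1, hkn, hzk⟩ | h
      · rw [comp_sq n b hk1 hkn hzk]
        exact ⟨⟨k - 1, by omega⟩, by simp only; congr 1; omega⟩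
      · exact absurd hC h
    · rintro ⟨k, rfl⟩
      have hmem : (((k : ℕ) + 1 : ℕ) + (1 / 2 : ℝ), (1 / 2 : ℝ)) ∈ sq ((k : ℕ) + 1) := by
        refine ⟨?_, ?_, ?_, ?_⟩ <;> simp only <;> linarith
      refine ⟨⟨_, sq_sub n b _ hmem, (comp_sq n b (by omega) (by omega) hmem).symm⟩, sq_bounded _⟩
  have hinj : Function.Injective (fun k : Fin n => sq ((k : ℕ) + 1)) := by
    intro k l h
    have hmem : (((k : ℕ) + 1 : ℕ) + (1 / 2 : ℝ), (1 / 2 : ℝ)) ∈ sq ((k : ℕ) + 1) := by
      refine ⟨?_, ?_, ?_, ?_⟩ <;> simp only <;> linarith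
    have h' : sq ((k : ℕ) + 1) = sq ((l : ℕ) + 1) := h
    rw [h'] at hmem
    obtain ⟨h2, h3, -, -⟩ := hmem
    simp only at h2 h3
    have h4 : (((l : ℕ) + 1 : ℕ) : ℝ) < ((k : ℕ) + 1 : ℕ) + 1 := by linarith
    have h5 : (((k : ℕ) + 1 : ℕ) : ℝ) < ((l : ℕ) + 1 : ℕ) + 1 := by linarith
    have h6 : (l : ℕ) + 1 < (k : ℕ) + 1 + 1 := by exact_mod_cast h4
    have h7 : (k : ℕ) + 1 < (l : ℕ) + 1 + 1 := by exact_mod_cast h5
    exact Fin.ext (by omega)
  rw [h1, ← image_univ, hinj.encard_image, Set.encard_univ]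
  simp

theorem ladder_not_preconnected (n : ℕ) : ¬ IsPreconnected (ladder n false) := by
  intro h
  have h1 : IsOpen {z : Plane | z.1 < 1 / 2} := isOpen_lt continuous_fst continuous_const
  have h2 : IsOpen {z : Plane | 1 / 2 < z.1} := isOpen_lt continuous_const continuous_fst
  obtain ⟨z, -, hz1, hz2⟩ := h _ _ h1 h2
    (by
      rintro z (⟨i, -, hi, -, -⟩ | ⟨k, j, -, hk, h3, -, -⟩)
      · rcases Nat.eq_zero_or_pos i with rfl | hpos
        · left
          change z.1 < 1 / 2
          rw [hi]; norm_num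
        · right
          change 1 / 2 < z.1
          have : (1 : ℝ) ≤ i := by exact_mod_cast hpos
          rw [hi]; linarith
      · right
        change 1 / 2 < z.1
        have hk' : k ≠ 0 := by
          rcases hk with h | h
          · exact h
          · simp at h
        have : (1 : ℝ) ≤ k := by exact_mod_cast Nat.pos_of_ne_zero hk'
        linarith)
    ⟨(0, 0), Or.inl ⟨0, by omega, by simp, le_rfl, zero_le_one⟩, by
      change (0 : ℝ) < 1 / 2
      norm_num⟩
    ⟨(1, 0), Or.inl ⟨1, by omega, by simp, le_rfl, zero_le_one⟩, by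
      change 1 / 2 < (1 : ℝ)
      norm_num⟩
  have hz1' : z.1 < 1 / 2 := hz1
  have hz2' : 1 / 2 < z.1 := hz2
  linarith

theorem ladder_preconnected (n : ℕ) : IsPreconnected (ladder n true) := by
  -- the bottom line, the vertical segments, the top segments
  let B : Set Plane := Icc (0 : ℝ) (n + 1) ×ˢ {(0 : ℝ)}
  let Vt : ℕ → Set Plane := fun i => {(i : ℝ)} ×ˢ Icc (0 : ℝ) 1
  let Tp : ℕ → Set Plane := fun k => Icc (k : ℝ) (k + 1) ×ˢ {(1 : ℝ)}
  have hB : IsPreconnected B := isPreconnected_Icc.prod isPreconnected_singleton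
  have hVt : ∀ i, IsPreconnected (Vt i) := fun i => isPreconnected_singleton.prod isPreconnected_Icc
  have hTp : ∀ k, IsPreconnected (Tp k) := fun k => isPreconnected_Icc.prod isPreconnected_singleton
  have hBs : B ⊆ ladder n true := by
    rintro z ⟨⟨h1, h2⟩, h3⟩
    have h3 : z.2 = 0 := h3
    obtain ⟨k, hk1, hk2⟩ : ∃ k : ℕ, (k : ℝ) ≤ z.1 ∧ z.1 < k + 1 :=
      ⟨⌊z.1⌋₊, Nat.floor_le h1, Nat.lt_floor_add_one _⟩
    by_cases hk : k ≤ n
    · refine Or.inr ⟨k, false, hk, Or.inr ⟨rfl, rfl⟩, hk1, hk2.le, by simp [lev, h3]⟩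
    · have h4 : (n : ℝ) + 1 ≤ k := by
        have : n + 1 ≤ k := by omega
        exact_mod_cast this
      refine Or.inl ⟨n + 1, le_rfl, ?_, h3.ge, by rw [h3]; exact zero_le_one⟩
      push_cast
      linarith
  have hVs : ∀ i, i ≤ n + 1 → Vt i ⊆ ladder n true := by
    rintro i hi z ⟨h1, h2, h3⟩
    exact Or.inl ⟨i, hi, h1, h2, h3⟩
  have hTs : ∀ k, 1 ≤ k → k ≤ n → Tp k ⊆ ladder n true := by
    rintro k hk1 hk z ⟨⟨h1, h2⟩, h3⟩
    have h3 : z.2 = 1 := h3
    exact Or.inr ⟨k, true, hk, Or.inl (by omega), h1, h2, by simp [lev, h3]⟩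
  have h0B : ((0, 0) : Plane) ∈ B := ⟨⟨le_rfl, by positivity⟩, rfl⟩
  have hBV : ∀ i, i ≤ n + 1 → IsPreconnected (B ∪ Vt i) := by
    intro i hi
    have hi' : (i : ℝ) ≤ n + 1 := by exact_mod_cast hi
    exact IsPreconnected.union ((i : ℝ), 0) ⟨⟨by positivity, hi'⟩, rfl⟩ ⟨rfl, le_rfl, zero_le_one⟩
      hB (hVt i)
  refine isPreconnected_of_forall ((0, 0) : Plane) ?_
  rintro z (⟨i, hi, h1, h2, h3⟩ | ⟨k, j, hk, hkj, h1, h2, h3⟩)
  · exact ⟨B ∪ Vt i, union_subset hBs (hVs i hi), Or.inl h0B, Or.inr ⟨h1, h2, h3⟩, hBV i hi⟩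
  · cases j with
    | false =>
      refine ⟨B, hBs, h0B, ⟨⟨?_, ?_⟩, ?_⟩, hB⟩
      · exact le_trans (by positivity) h1
      · have : (k : ℝ) ≤ n := by exact_mod_cast hk
        linarith
      · change z.2 = 0
        rw [h3]; simp [lev]
    | true =>
      have hk0 : 1 ≤ k := by
        rcases hkj with h | h
        · omega
        · simp at h
      have h3' : z.2 = 1 := by rw [h3]; simp [lev]
      refine ⟨(B ∪ Vt k) ∪ Tp k, union_subset (union_subset hBs (hVs k (by omega)))
        (hTs k hk0 hk), Or.inl (Or.inl h0B), Or.inr ⟨⟨h1, h2⟩, h3'⟩, ?_⟩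
      exact IsPreconnected.union ((k : ℝ), 1) (Or.inr ⟨rfl, zero_le_one, le_rfl⟩)
        ⟨⟨le_rfl, by linarith⟩, rfl⟩ (hBV k (by omega)) (hTp k)

/-- **Theorem.** For every `n` (in particular every `n ≥ 1`), the space of classes of degenerate
graph embeddings in the plane with exactly `n` bounded faces is not homotopy equivalent to the
unordered configuration space of `n` points of the plane. -/
theorem result : ∀ n : ℕ, 1 ≤ n →
    ¬ Nonempty (ContinuousMap.HomotopyEquiv (NetsN n) (UConf n)) := by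
  intro n _
  obtain ⟨a, ha⟩ := exists_ladder n true
  obtain ⟨b, hb⟩ := exists_ladder n false
  refine not_equiv ⟨a, by rw [ha]; exact faces_ladder n true⟩
    ⟨b, by rw [hb]; exact faces_ladder n false⟩ ?_ ?_
  · change IsPreconnected a.image
    rw [ha]
    exact ladder_preconnected n
  · change ¬ IsPreconnected b.image
    rw [hb]
    exact ladder_not_preconnected n

end Pool.Agent.Results.MP_c05aef_gt.NotHomotopyEquiv
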